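import Pool.Agent.Lib.MP_a0202c_co.Main

open Pool.Agent.Lib.MP_a0202c_co

universe u

namespace Pool.Agent.Results.MP_a0202c_co.FiniteSuborbits

/-- Let `G` be a permutation group on `Ω` such that either `Ω` is countable and all suborbits
(orbits of point stabilisers) are finite, or `G` is transitive with finite point stabilisers. Then
`G` is realisable if and only if, for all points `a`, `b`, with `K = G_{ab}`:
if `N_G(K)/K` is infinite, then some `c` satisfies `G_{ac} = G_{bc} = K`; and if `N_G(K)/K` is
finite, then there is a Latin triple system at `K`. -/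
theorem result {Ω : Type u} (G : Subgroup (Equiv.Perm Ω))
    (h : (Countable Ω ∧ ∀ a b : Ω, (MulAction.orbit (MulAction.stabilizer G a) b).Finite) ∨
      (MulAction.IsPretransitive G Ω ∧ ∀ a : Ω, Finite (MulAction.stabilizer G a))) :
    Realisable G ↔ ∀ a b : Ω,
      (Infinite (NQ (stab₂ G a b)) →
        ∃ c, stab₂ G a c = stab₂ G a b ∧ stab₂ G b c = stab₂ G a b) ∧
      (Finite (NQ (stab₂ G a b)) →
        ∃ L : Set (Ω × Ω × Ω), IsLocalLatin G (stab₂ G a b) L) :=
  realisable_iff_main G h

end Pool.Agent.Results.MP_a0202c_co.FiniteSuborbits
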