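import Pool.Agent.Lib.MP_a0202c_co.Odd.TwoNil

open Pool.Agent.Lib.MP_a0202c_co

universe u

namespace Pool.Agent.Results.MP_a0202c_co.OddStabilisers

/-- **Hall–Paige for finite transitive groups with odd stabilisers.** Let `G` be a finite transitive
permutation group and `M` a normal subgroup of odd order containing the point stabilisers such that
`G_x` fixes a point in every orbit of `M`. Suppose that the point stabilisers are cyclic or, more
generally, that every `r` in `M` normalises all the two-point stabilisers `G_y ∩ G_{ry}`. If `G/M`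
has a complete mapping then `G` is realisable. If the Sylow 2-subgroups of `G` are cyclic and
nontrivial then `G` is not realisable. If `G/M` is a 2-group then `G` is realisable if and only if
its Sylow 2-subgroups are trivial or not cyclic. -/
theorem result {Ω : Type u} [Finite Ω] (G : Subgroup (Equiv.Perm Ω))
    (htr : ∀ x y : Ω, ∃ g ∈ G, g x = y)
    (M : Subgroup G) (hMn : M.Normal) (hM : Odd (Nat.card M))
    (hst : ∀ x : Ω, MulAction.stabilizer G x ≤ M)
    (hF : ∀ x y : Ω, ∃ m ∈ M, ∀ g : G, g • x = x → g • (m • y) = m • y)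
    (hC : (∀ x : Ω, IsCyclic (MulAction.stabilizer G x)) ∨
      ∀ r ∈ M, ∀ y : Ω, r ∈ Subgroup.normalizer (stab₂ G y (r • y) : Set G)) :
    (HasCompleteMapping (G ⧸ M) → Realisable G) ∧
    ((2 ∣ Nat.card G ∧ ∃ P : Sylow 2 G, IsCyclic P) → ¬ Realisable G) ∧
    (IsPGroup 2 (G ⧸ M) →
      (Realisable G ↔ (Nat.card G % 2 = 1 ∨ ∀ P : Sylow 2 G, ¬ IsCyclic P))) := by
  classical
  have hnorm : ∀ r ∈ M, ∀ y : Ω, r ∈ Subgroup.normalizer (stab₂ G y (r • y) : Set G) := by
    rcases hC with hC | hC
    · exact fun r _ y => Odd.normalizer_of_cyclic hC r y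
    · exact hC
  have htr' : ∀ x y : Ω, ∃ g : G, g • x = y := by
    intro x y
    obtain ⟨g, hg, h⟩ := htr x y
    exact ⟨⟨g, hg⟩, h⟩
  rcases isEmpty_or_nonempty Ω with hE | ⟨⟨x⟩⟩
  · -- the empty set
    have hG1 : ∀ g : G, g = 1 := fun g => Subtype.ext (Subsingleton.elim _ _)
    have hsub : Subsingleton G := ⟨fun a b => (hG1 a).trans (hG1 b).symm⟩
    have hreal : Realisable G :=
      ⟨fun x _ => x, ⟨fun a => (hE.false a).elim, fun a => (hE.false a).elim⟩,
        fun _ _ a => (hE.false a).elim⟩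
    have hcard : Nat.card G = 1 := Nat.card_eq_one_iff_unique.2 ⟨hsub, ⟨1⟩⟩
    refine ⟨fun _ => hreal, ?_, fun _ => ⟨fun _ => Or.inl (by rw [hcard]), fun _ => hreal⟩⟩
    rintro ⟨h2, _⟩
    rw [hcard] at h2
    omega
  have hyes : HasCompleteMapping (G ⧸ M) → Realisable G := fun hθ =>
    (realisable_iff G).2 (Odd.realisable_of_odd_normal x (htr' x) M hM (hst x) (hF x) hnorm hθ)
  have hno : (2 ∣ Nat.card G ∧ ∃ P : Sylow 2 G, IsCyclic P) → ¬ Realisable G := by
    rintro ⟨h2, P, hP⟩ hreal
    have hH : Odd (Nat.card (MulAction.stabilizer G x)) :=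
      Odd.of_dvd_nat hM (Subgroup.card_dvd_of_le (hst x))
    exact Odd.not_realisable_of_cyclic_sylow x (htr' x) hH h2 P hP ((realisable_iff G).1 hreal)
  refine ⟨hyes, hno, fun hp => ⟨fun hreal => ?_, fun h => hyes ?_⟩⟩
  · by_contra hcon
    push Not at hcon
    exact hno ⟨by omega, hcon.2⟩ hreal
  · obtain ⟨k, hk⟩ := hp.exists_card_eq
    refine Odd.complete_of_complement M hM k (by rw [Subgroup.index_eq_card, hk]) ?_
    rintro ⟨h2, P, hP⟩
    rcases h with h | h
    · omega
    · exact h P hP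

end Pool.Agent.Results.MP_a0202c_co.OddStabilisers
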