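import Pool.Agent.Lib.MP_a0202c_co.Local

open Pool.Agent.Lib.MP_a0202c_co

namespace Pool.Agent.Results.MP_a0202c_co.OrbitalCriterion

/-- **Complete mappings of orbitals.** An arbitrary permutation group `G` on `Ω` is realisable if
and only if there are two permutations `σ`, `τ` of its set of orbitals such that every orbital `X`
contains a pair `(a, b)` for which some point `c` satisfies `(a, c) ∈ σ X`, `(b, c) ∈ τ X` and
`G_{ab} = G_{ac} = G_{bc}`. -/
theorem result {Ω : Type*} (G : Subgroup (Equiv.Perm Ω)) :
    Realisable G ↔ ∃ σ τ : Equiv.Perm (MulAction.orbitRel.Quotient G (Ω × Ω)),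
      ∀ X, ∃ a b c : Ω, orbital G a b = X ∧ orbital G a c = σ X ∧ orbital G b c = τ X ∧
        stab₂ G a c = stab₂ G a b ∧ stab₂ G b c = stab₂ G a b :=
  (realisable_iff G).trans realisableAction_iff_orbital

end Pool.Agent.Results.MP_a0202c_co.OrbitalCriterion
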