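import Pool.Agent.Lib.MP_a0202c_co.Main

open Pool.Agent.Lib.MP_a0202c_co

universe u

namespace Pool.Agent.Results.MP_a0202c_co.TIStabilisers

/-- Let `G` be a transitive permutation group on an infinite set whose point stabilisers are finite,
nontrivial and pairwise equal or of trivial intersection. Then `G` is realisable if and only if the
number of distinct point stabilisers is not `2` and, for a point stabiliser `S` with `N_G(S)/S`
finite, the group `N_G(S)/S` has a complete mapping. -/
theorem result {Ω : Type u} [Infinite Ω] (G : Subgroup (Equiv.Perm Ω))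
    (htr : MulAction.IsPretransitive G Ω)
    (hfin : ∀ a : Ω, Finite (MulAction.stabilizer G a))
    (hne : ∀ a : Ω, MulAction.stabilizer G a ≠ ⊥)
    (hTI : ∀ a b : Ω, MulAction.stabilizer G a ≠ MulAction.stabilizer G b →
      MulAction.stabilizer G a ⊓ MulAction.stabilizer G b = ⊥) :
    Realisable G ↔
      (Set.range fun a : Ω => MulAction.stabilizer G a).ncard ≠ 2 ∧
      ∀ a : Ω, Finite (NQ (MulAction.stabilizer G a)) →
        HasCompleteMapping (NQ (MulAction.stabilizer G a)) :=
  (realisable_iff G).trans
    (realisableAction_iff_of_TI (fun x y => MulAction.exists_smul_eq G x y) hfin hne hTI)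

end Pool.Agent.Results.MP_a0202c_co.TIStabilisers
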